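import Mathlib.Algebra.Polynomial.Eval.Defs
import Mathlib.RingTheory.Polynomial.Content
import Mathlib.Algebra.Polynomial.SpecificDegree
import Mathlib.Topology.Algebra.Order.LiminfLimsup
import Mathlib.Analysis.SpecificLimits.Basic
import Mathlib.Tactic

open Polynomial Filter

namespace Pool.Agent.Results.MP_0950f1_nt.LimsupFails

/-- The sequence `a_{P,N}` of the problem: `a 1 = N` and
`a n = a (n-1) - gcd (a (n-1)) (P n)` for `n ≥ 2` (the value at index `0` is junk).
`Int.gcd m 0 = |m|`, as in the convention of the problem. -/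
def a (P : ℤ[X]) (N : ℕ) : ℕ → ℤ
  | 0 => 0
  | 1 => N
  | (n + 2) => a P N (n + 1) - (Int.gcd (a P N (n + 1)) (P.eval ((n + 2 : ℕ) : ℤ)) : ℤ)

/-- The zero time `f_P(N) = min {n ≥ 1 : a_{P,N}(n) = 0}`. -/
noncomputable def f (P : ℤ[X]) (N : ℕ) : ℕ := sInf {n : ℕ | 1 ≤ n ∧ a P N n = 0}

/-- The hypotheses of the problem on `P`. -/
def Admissible (P : ℤ[X]) : Prop :=
  (∀ n : ℕ, 1 ≤ n → 0 ≤ P.eval (n : ℤ)) ∧ Tendsto (fun n : ℕ => P.eval (n : ℤ)) atTop atTop

theorem a_step (P : ℤ[X]) (N n : ℕ) :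
    a P N (n + 2) = a P N (n + 1) - (Int.gcd (a P N (n + 1)) (P.eval ((n + 2 : ℕ) : ℤ)) : ℤ) := by
  rw [a]

/-- When all values of `P` are even, from the index `2` on all terms are even, and while positive
they drop by at least `2` at each step. -/
theorem a_bound (P : ℤ[X]) (hP : ∀ n : ℕ, 1 ≤ n → Even (P.eval (n : ℤ))) (N : ℕ) (hN : 1 ≤ N) :
    ∀ n : ℕ, (∃ m : ℕ, 1 ≤ m ∧ m ≤ n + 2 ∧ a P N m = 0) ∨
      (Even (a P N (n + 2)) ∧ 0 < a P N (n + 2) ∧ a P N (n + 2) ≤ N - 1 - 2 * n) := by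
  intro n
  induction n with
  | zero =>
    have h1 : a P N 1 = N := by rw [a]
    have h2 := a_step P N 0
    simp only [Nat.zero_add] at h2
    rw [h1] at h2
    set d : ℕ := Int.gcd (N : ℤ) (P.eval ((2 : ℕ) : ℤ)) with hd
    have hdpos : 0 < d := Int.gcd_pos_of_ne_zero_left _ (by exact_mod_cast (by omega : N ≠ 0))
    have hdN : (d : ℤ) ∣ (N : ℤ) := Int.gcd_dvd_left ..
    have hdN' : d ∣ N := by exact_mod_cast hdN
    have hdle : d ≤ N := Nat.le_of_dvd (by omega) hdN'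
    have heven : Even ((N : ℤ) - d) := by
      have hiff : (2 : ℤ) ∣ N ↔ (2 : ℤ) ∣ d := by
        constructor
        · intro h
          rw [hd]
          exact Int.dvd_coe_gcd h (even_iff_two_dvd.mp (hP 2 (by norm_num)))
        · intro h
          exact h.trans hdN
      rw [Int.even_sub, even_iff_two_dvd, even_iff_two_dvd]
      exact hiff
    by_cases h0 : a P N 2 = 0
    · exact Or.inl ⟨2, by norm_num, le_refl _, h0⟩
    · right
      have h2' : a P N (0 + 2) = (N : ℤ) - d := h2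
      have h0' : a P N (0 + 2) ≠ 0 := h0
      refine ⟨by rw [h2']; exact heven, ?_, ?_⟩
      · have : (0 : ℤ) ≤ (N : ℤ) - d := by
          have : (d : ℤ) ≤ N := by exact_mod_cast hdle
          linarith
        rw [h2'] at h0' ⊢
        omega
      · rw [h2']
        have : (1 : ℤ) ≤ d := by exact_mod_cast hdpos
        push_cast
        linarith
  | succ n ih =>
    rcases ih with ⟨m, hm1, hm2, hm3⟩ | ⟨hev, hpos, hle⟩
    · exact Or.inl ⟨m, hm1, by omega, hm3⟩
    · have h2 := a_step P N (n + 1)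
      have hrw : n + 1 + 1 = n + 2 := by ring
      rw [hrw] at h2
      set x : ℤ := a P N (n + 2) with hx
      set d : ℕ := Int.gcd x (P.eval ((n + 1 + 2 : ℕ) : ℤ)) with hd
      have hdpos : 0 < d := Int.gcd_pos_of_ne_zero_left _ (by omega)
      have hdx : (d : ℤ) ∣ x := Int.gcd_dvd_left ..
      have hdle : (d : ℤ) ≤ x := Int.le_of_dvd hpos hdx
      have h2d : (2 : ℤ) ∣ d := by
        rw [hd]
        exact Int.dvd_coe_gcd (even_iff_two_dvd.mp hev)
          (even_iff_two_dvd.mp (hP (n + 1 + 2) (by omega)))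
      by_cases h0 : a P N (n + 1 + 2) = 0
      · exact Or.inl ⟨n + 1 + 2, by omega, le_refl _, h0⟩
      · right
        have h2d' : (2 : ℤ) ≤ d := by
          have : (0 : ℤ) < d := by exact_mod_cast hdpos
          obtain ⟨k, hk⟩ := h2d
          omega
        refine ⟨?_, ?_, ?_⟩
        · rw [h2]
          exact hev.sub (even_iff_two_dvd.mpr h2d)
        · rw [h2] at h0 ⊢
          omega
        · rw [h2]
          push_cast
          linarith

/-- The bound on the zero time for even-valued polynomials. -/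
theorem f_bound (P : ℤ[X]) (hP : ∀ n : ℕ, 1 ≤ n → Even (P.eval (n : ℤ))) (N : ℕ) (hN : 1 ≤ N) :
    2 * f P N ≤ N + 4 := by
  rcases a_bound P hP N hN (N / 2) with ⟨m, hm1, hm2, hm3⟩ | ⟨_, hpos, hle⟩
  · have hf : f P N ≤ m := Nat.sInf_le ⟨hm1, hm3⟩
    omega
  · exfalso
    have : (N : ℤ) - 1 - 2 * ((N / 2 : ℕ) : ℤ) ≤ 0 := by
      have h : 2 * (N / 2) + 1 ≥ N := by omega
      have h' : (2 * ((N / 2 : ℕ) : ℤ) + 1) ≥ N := by exact_mod_cast h
      linarith
    linarith

/-- The zero time is attained for even-valued polynomials (so `f` is a genuine minimum). -/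
theorem f_attained (P : ℤ[X]) (hP : ∀ n : ℕ, 1 ≤ n → Even (P.eval (n : ℤ))) (N : ℕ)
    (hN : 1 ≤ N) : 1 ≤ f P N ∧ a P N (f P N) = 0 := by
  have hne : ({n : ℕ | 1 ≤ n ∧ a P N n = 0}).Nonempty := by
    rcases a_bound P hP N hN (N / 2) with ⟨m, hm1, _, hm3⟩ | ⟨_, hpos, hle⟩
    · exact ⟨m, hm1, hm3⟩
    · exfalso
      have : (N : ℤ) - 1 - 2 * ((N / 2 : ℕ) : ℤ) ≤ 0 := by
        have h : 2 * (N / 2) + 1 ≥ N := by omega
        have h' : (2 * ((N / 2 : ℕ) : ℤ) + 1) ≥ N := by exact_mod_cast h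
        linarith
      linarith
  exact Nat.sInf_mem hne

theorem limsup_bound (P : ℤ[X]) (hP : ∀ n : ℕ, 1 ≤ n → Even (P.eval (n : ℤ))) :
    limsup (fun N : ℕ => (f P N : ℝ) / N) atTop ≤ 1 / 2 := by
  have h1 : Tendsto (fun N : ℕ => (1 / 2 : ℝ) + 2 * ((N : ℝ))⁻¹) atTop (nhds (1 / 2)) := by
    have h := (tendsto_inv_atTop_nhds_zero_nat (𝕜 := ℝ)).const_mul 2
    have h' := h.const_add (1 / 2 : ℝ)
    simpa using h'
  rw [← h1.limsup_eq]
  refine limsup_le_limsup ?_ ?_ ?_
  · filter_upwards [eventually_ge_atTop 1] with N hN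
    have hb := f_bound P hP N hN
    have hN' : (0 : ℝ) < N := by exact_mod_cast hN
    have hb' : (2 : ℝ) * f P N ≤ N + 4 := by exact_mod_cast hb
    rw [div_le_iff₀ hN']
    have : ((1 / 2 : ℝ) + 2 * ((N : ℝ))⁻¹) * N = N / 2 + 2 := by
      field_simp
    rw [this]
    linarith
  · refine isCoboundedUnder_le_of_le atTop (x := 0) ?_
    intro N
    positivity
  · exact h1.isBoundedUnder_le

/-- The polynomial `x² + x + 2`. -/
noncomputable def Q : ℤ[X] := X ^ 2 + X + 2

theorem Q_eval (n : ℤ) : Q.eval n = n ^ 2 + n + 2 := by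
  simp [Q]

theorem Q_natDegree : Q.natDegree = 2 := by
  unfold Q
  compute_degree!

theorem Q_monic : Q.Monic := by
  unfold Q
  monicity!

theorem Q_irreducible : Irreducible Q := by
  rw [Q_monic.irreducible_iff_roots_eq_zero_of_degree_le_three (by rw [Q_natDegree])
    (by rw [Q_natDegree]; norm_num)]
  rw [Multiset.eq_zero_iff_forall_notMem]
  intro x hx
  rw [mem_roots Q_monic.ne_zero, IsRoot.def, Q_eval] at hx
  nlinarith [sq_nonneg (2 * x + 1)]

theorem Q_even (n : ℕ) : Even (Q.eval (n : ℤ)) := by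
  rw [Q_eval]
  have : ((n : ℤ) ^ 2 + n + 2) = n * (n + 1) + 2 := by ring
  rw [this]
  exact (Int.even_mul_succ_self (n : ℤ)).add even_two

theorem Q_admissible : Admissible Q := by
  refine ⟨fun n _ => ?_, ?_⟩
  · rw [Q_eval]; positivity
  · refine tendsto_atTop_mono (f := fun n : ℕ => (n : ℤ)) (fun n => ?_) tendsto_natCast_atTop_atTop
    rw [Q_eval]
    nlinarith [sq_nonneg (n : ℤ)]

/-- If all values of `P` at positive integers are even then `f_P(N) ≤ N/2 + 2` for every `N ≥ 1`,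
so the limsup of `f_P(N)/N` is at most `1/2`; this applies to the monic irreducible polynomial
`x² + x + 2`. Hence the assertion that the limsup is `1` for every admissible `P` is false. -/
theorem result :
    (∀ P : ℤ[X], (∀ n : ℕ, 1 ≤ n → Even (P.eval (n : ℤ))) →
      (∀ N : ℕ, 1 ≤ N → 1 ≤ f P N ∧ a P N (f P N) = 0 ∧ 2 * f P N ≤ N + 4) ∧
      limsup (fun N : ℕ => (f P N : ℝ) / N) atTop ≤ 1 / 2) ∧
    (∃ P : ℤ[X], Admissible P ∧ P.Monic ∧ Irreducible P ∧
      (∀ n : ℕ, 1 ≤ n → Even (P.eval (n : ℤ)))) ∧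
    ¬ ∀ P : ℤ[X], Admissible P → limsup (fun N : ℕ => (f P N : ℝ) / N) atTop = 1 := by
  refine ⟨fun P hP => ⟨fun N hN => ⟨(f_attained P hP N hN).1, (f_attained P hP N hN).2,
    f_bound P hP N hN⟩, limsup_bound P hP⟩,
    ⟨Q, Q_admissible, Q_monic, Q_irreducible, fun n _ => Q_even n⟩, fun h => ?_⟩
  have h1 := h Q Q_admissible
  have h2 := limsup_bound Q (fun n _ => Q_even n)
  rw [h1] at h2
  norm_num at h2

end Pool.Agent.Results.MP_0950f1_nt.LimsupFails
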